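import Mathlib

/-! Right ideals of `βG` and completely syndetic sets. -/

namespace V11289.CS

open Filter

attribute [local instance] Ultrafilter.mul Ultrafilter.semigroup

variable {G : Type*} [Group G]

/-- `A` is `n`-syndetic: there is a finite `F` such that every set `S` with at most `n` elements is
contained in `f A` for some `f ∈ F`. -/
def IsNSyndetic (A : Set G) (n : ℕ) : Prop :=
  ∃ F : Finset G, ∀ S : Finset G, S.card ≤ n → ∃ f ∈ F, ∀ s ∈ S, ∃ a ∈ A, s = f * a

/-- `A` is completely syndetic. -/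
def IsCS (A : Set G) : Prop := ∀ n : ℕ, 1 ≤ n → IsNSyndetic A n

/-- A right ideal of `βG`. -/
def IsRightIdeal (R : Set (Ultrafilter G)) : Prop :=
  R.Nonempty ∧ ∀ p ∈ R, ∀ q : Ultrafilter G, p * q ∈ R

/-- A minimal closed right ideal of `βG`. -/
def IsMinimalClosedRightIdeal (R : Set (Ultrafilter G)) : Prop :=
  (IsClosed R ∧ IsRightIdeal R) ∧
    ∀ R' : Set (Ultrafilter G), IsClosed R' → IsRightIdeal R' → R' ⊆ R → R' = R

lemma finite_hit {A : Set G} (hA : IsCS A) (Q : Finset (Ultrafilter G)) :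
    ∃ g : G, ∀ q ∈ Q, {s | g * s ∈ A} ∈ q := by
  classical
  obtain ⟨Fn, hF⟩ := hA (Q.card + 1) (by omega)
  by_contra hno
  push Not at hno
  have h1 : ∀ f : G, ∃ q ∈ Q, {s | f⁻¹ * s ∉ A} ∈ q := by
    intro f
    obtain ⟨q, hq, hq2⟩ := hno f⁻¹
    refine ⟨q, hq, ?_⟩
    have := Ultrafilter.compl_mem_iff_notMem.2 hq2
    exact this
  choose qf hqf hqf2 using h1
  have h2 : ∀ q : Ultrafilter G, ∃ s : G, ∀ f ∈ Fn, qf f = q → f⁻¹ * s ∉ A := by
    intro q
    have hmem : (⋂ f ∈ Fn.filter (fun f => qf f = q), {s | f⁻¹ * s ∉ A}) ∈ (q : Filter G) := by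
      rw [Filter.biInter_finset_mem]
      intro f hf
      rw [Finset.mem_filter] at hf
      have := hqf2 f
      rw [hf.2] at this
      exact this
    obtain ⟨s, hs⟩ := Filter.nonempty_of_mem hmem
    refine ⟨s, ?_⟩
    intro f hf hfq
    rw [Set.mem_iInter₂] at hs
    exact hs f (Finset.mem_filter.2 ⟨hf, hfq⟩)
  choose s hs using h2
  obtain ⟨f, hf, hf2⟩ := hF (Q.image s) (Finset.card_image_le.trans (Nat.le_succ _))
  obtain ⟨a, ha, hsa⟩ := hf2 (s (qf f)) (Finset.mem_image_of_mem _ (hqf f))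
  apply hs (qf f) f hf rfl
  rw [hsa, inv_mul_cancel_left]
  exact ha

lemma exists_ultra {A : Set G} (hA : IsCS A) : ∃ p : Ultrafilter G, ∀ q : Ultrafilter G, A ∈ p * q := by
  classical
  let B : Ultrafilter G → Set G := fun q => {g | {s | g * s ∈ A} ∈ q}
  obtain ⟨p, hp⟩ := Ultrafilter.exists_ultrafilter_of_finite_inter_nonempty (Set.range B) (by
    intro T hT
    have hch : ∀ b : Set G, b ∈ T → ∃ q, B q = b := fun b hb => hT hb
    choose! f hf using hch
    obtain ⟨g, hg⟩ := finite_hit hA (T.image f)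
    refine ⟨g, ?_⟩
    rw [Set.mem_sInter]
    intro b hb
    rw [← hf b hb]
    exact hg (f b) (Finset.mem_image_of_mem _ hb))
  refine ⟨p, ?_⟩
  intro q
  have h1 : B q ∈ p := hp ⟨q, rfl⟩
  have h2 := (Ultrafilter.eventually_mul p q (fun x => x ∈ A)).2
  exact h2 h1

lemma exists_min {A : Set G} (hA : IsCS A) :
    ∃ R : Set (Ultrafilter G), IsMinimalClosedRightIdeal R ∧ ∀ r ∈ R, A ∈ r := by
  obtain ⟨p, hp⟩ := exists_ultra hA
  set R₀ : Set (Ultrafilter G) := closure (Set.range (fun q => p * q)) with hR₀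
  have hR₀A : ∀ r ∈ R₀, A ∈ r := by
    intro r hr
    have hcl : IsClosed {u : Ultrafilter G | A ∈ u} := ultrafilter_isClosed_basic A
    have hsub : Set.range (fun q => p * q) ⊆ {u : Ultrafilter G | A ∈ u} := by
      rintro _ ⟨q, rfl⟩
      exact hp q
    exact closure_minimal hsub hcl hr
  have hR₀I : IsRightIdeal R₀ := by
    refine ⟨⟨p * p, subset_closure ⟨p, rfl⟩⟩, ?_⟩
    intro r hr q
    have hcont : Continuous (fun u : Ultrafilter G => u * q) := Ultrafilter.continuous_mul_left q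
    refine map_mem_closure (f := fun u : Ultrafilter G => u * q) hcont hr ?_
    rintro _ ⟨q', rfl⟩
    exact ⟨q' * q, (mul_assoc p q' q).symm⟩
  obtain ⟨R, hRR₀, hR⟩ := zorn_superset_nonempty
    {R : Set (Ultrafilter G) | IsClosed R ∧ IsRightIdeal R} (by
      intro c hc hchain hne
      refine ⟨⋂₀ c, ⟨?_, ?_, ?_⟩, fun s hs => Set.sInter_subset_of_mem hs⟩
      · exact isClosed_sInter (fun s hs => (hc hs).1)
      · have := hne.to_subtype
        apply IsCompact.nonempty_sInter_of_directed_nonempty_isCompact_isClosed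
        · intro s hs t ht
          rcases hchain.total hs ht with h | h
          · exact ⟨s, hs, subset_rfl, h⟩
          · exact ⟨t, ht, h, subset_rfl⟩
        · exact fun s hs => (hc hs).2.1
        · exact fun s hs => (hc hs).1.isCompact
        · exact fun s hs => (hc hs).1
      · intro r hr q
        rw [Set.mem_sInter] at hr ⊢
        exact fun s hs => (hc hs).2.2 r (hr s hs) q) R₀ ⟨isClosed_closure, hR₀I⟩
  refine ⟨R, ⟨hR.prop, ?_⟩, fun r hr => hR₀A r (hRR₀ hr)⟩
  intro R' h1 h2 h3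
  exact Set.Subset.antisymm h3 (hR.le_of_le ⟨h1, h2⟩ h3)

/-- A partition into two completely syndetic sets gives two different minimal closed right
ideals. -/
theorem two_minimal {A : Set G} (hA : IsCS A) (hA' : IsCS Aᶜ) :
    ∃ R₁ R₂ : Set (Ultrafilter G), IsMinimalClosedRightIdeal R₁ ∧ IsMinimalClosedRightIdeal R₂ ∧
      R₁ ≠ R₂ := by
  obtain ⟨R₁, h1, h1A⟩ := exists_min hA
  obtain ⟨R₂, h2, h2A⟩ := exists_min hA'
  refine ⟨R₁, R₂, h1, h2, ?_⟩
  rintro rfl
  obtain ⟨r, hr⟩ := h1.1.2.1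
  exact Ultrafilter.compl_notMem_iff.2 (h1A r hr) (h2A r hr)

end V11289.CS
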