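import Mathlib

/-! Counting lemmas for MP_be5e04_al: existence of a function meeting one of many prescribed partial
assignments for every test. -/

namespace V11289.CS

open Finset

lemma card_agree {X A : Type*} [Fintype X] [DecidableEq X] [Fintype A] [DecidableEq A]
    (B : Finset (X → A)) (D : Finset X) (φ : X → A)
    (hB : ∀ u ∈ B, D.piecewise φ u ∈ B) :
    B.card ≤ (Fintype.card A) ^ D.card * (B.filter (fun u => ∀ x ∈ D, u x = φ x)).card := by
  classical
  refine Finset.card_le_mul_card_image_of_maps_to (f := fun u => D.piecewise φ u) ?_ _ ?_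
  · intro u hu
    rw [Finset.mem_filter]
    refine ⟨hB u hu, ?_⟩
    intro x hx
    simp [Finset.piecewise_eq_of_mem _ _ _ hx]
  · intro v hv
    have h1 : (B.filter (fun u => D.piecewise φ u = v)).card
        ≤ (Finset.univ : Finset (D → A)).card := by
      refine Finset.card_le_card_of_injOn (fun u x => u x.1) (by intro u _; simp) ?_
      intro u hu w hw huw
      rw [Finset.mem_coe, Finset.mem_filter] at hu hw
      funext x
      by_cases hx : x ∈ D
      · exact congrFun huw ⟨x, hx⟩
      · have h1 := congrFun hu.2 x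
        have h2 := congrFun hw.2 x
        rw [Finset.piecewise_eq_of_notMem _ _ _ hx] at h1 h2
        rw [h1, h2]
    refine h1.trans ?_
    simp

/-- The set of functions agreeing with `φ₀` on `D₀` and violating all tests in `S`. -/
def bad {X A J : Type*} [Fintype X] [DecidableEq X] [Fintype A] [DecidableEq A]
    (D₀ : Finset X) (φ₀ : X → A) (D : J → Finset X) (φ : J → X → A) (S : Finset J) :
    Finset (X → A) :=
  Finset.univ.filter (fun u => (∀ x ∈ D₀, u x = φ₀ x) ∧ ∀ j ∈ S, ¬ ∀ x ∈ D j, u x = φ j x)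

lemma card_bad {X A J : Type*} [Fintype X] [DecidableEq X] [Fintype A] [DecidableEq A]
    [DecidableEq J]
    (D₀ : Finset X) (φ₀ : X → A) (D : J → Finset X) (φ : J → X → A) (n : ℕ)
    (S : Finset J) (hn : ∀ j ∈ S, (D j).card ≤ n) (h0 : ∀ j ∈ S, Disjoint (D j) D₀)
    (hd : ∀ i ∈ S, ∀ j ∈ S, i ≠ j → Disjoint (D i) (D j)) (hA : 0 < Fintype.card A) :
    (Fintype.card A ^ n) ^ S.card * (bad D₀ φ₀ D φ S).card
      ≤ (Fintype.card A ^ n - 1) ^ S.card * (bad D₀ φ₀ D φ ∅).card := by
  classical
  induction S using Finset.induction_on with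
  | empty => simp
  | insert j S hj ih =>
    have ih' := ih (fun i hi => hn i (Finset.mem_insert_of_mem hi))
      (fun i hi => h0 i (Finset.mem_insert_of_mem hi))
      (fun i hi k hk hik => hd i (Finset.mem_insert_of_mem hi) k (Finset.mem_insert_of_mem hk) hik)
    set q := Fintype.card A ^ n with hq
    have hq1 : 1 ≤ q := Nat.one_le_pow _ _ hA
    -- agreeing functions
    have hag : (bad D₀ φ₀ D φ S).card
        ≤ q * ((bad D₀ φ₀ D φ S).filter (fun u => ∀ x ∈ D j, u x = φ j x)).card := by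
      refine (card_agree _ (D j) (φ j) ?_).trans ?_
      · intro u hu
        rw [bad, Finset.mem_filter] at hu ⊢
        refine ⟨Finset.mem_univ _, ?_, ?_⟩
        · intro x hx
          have hxj : x ∉ D j := fun h =>
            (Finset.disjoint_left.1 (h0 j (Finset.mem_insert_self _ _))) h hx
          rw [Finset.piecewise_eq_of_notMem _ _ _ hxj]
          exact hu.2.1 x hx
        · intro i hi hall
          apply hu.2.2 i hi
          intro x hx
          have hij : i ≠ j := by
            rintro rfl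
            exact hj hi
          have hxj : x ∉ D j := fun h =>
            (Finset.disjoint_left.1 (hd i (Finset.mem_insert_of_mem hi) j
              (Finset.mem_insert_self _ _) hij)) hx h
          have := hall x hx
          rwa [Finset.piecewise_eq_of_notMem _ _ _ hxj] at this
      · apply Nat.mul_le_mul_right
        exact Nat.pow_le_pow_right hA (hn j (Finset.mem_insert_self _ _))
    have hsplit : (bad D₀ φ₀ D φ (insert j S)).card
        + ((bad D₀ φ₀ D φ S).filter (fun u => ∀ x ∈ D j, u x = φ j x)).card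
        = (bad D₀ φ₀ D φ S).card := by
      rw [← Finset.card_filter_add_card_filter_not (s := bad D₀ φ₀ D φ S)
        (fun u => ∀ x ∈ D j, u x = φ j x), add_comm]
      congr 2
      ext u
      simp only [bad, Finset.mem_filter, Finset.mem_univ, true_and, Finset.mem_insert,
        forall_eq_or_imp]
      tauto
    rw [Finset.card_insert_of_notMem hj, pow_succ, pow_succ]
    set b := (bad D₀ φ₀ D φ S).card
    set b' := (bad D₀ φ₀ D φ (insert j S)).card
    set g := ((bad D₀ φ₀ D φ S).filter (fun u => ∀ x ∈ D j, u x = φ j x)).card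
    set b0 := (bad D₀ φ₀ D φ ∅).card
    have h2 : q * b' ≤ (q - 1) * b := by
      obtain ⟨r, hr⟩ : ∃ r, q = r + 1 := ⟨q - 1, by omega⟩
      rw [hr] at hag ⊢
      have : r + 1 - 1 = r := by omega
      rw [this]
      nlinarith
    calc q ^ S.card * q * b' = q ^ S.card * (q * b') := by ring
      _ ≤ q ^ S.card * ((q - 1) * b) := Nat.mul_le_mul_left _ h2
      _ = (q - 1) * (q ^ S.card * b) := by ring
      _ ≤ (q - 1) * ((q - 1) ^ S.card * b0) := Nat.mul_le_mul_left _ ih'
      _ = (q - 1) ^ S.card * (q - 1) * b0 := by ring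

/-- Existence of a function satisfying for each test at least one of its partial assignments. -/
theorem exists_fun {X A J Θ : Type*} [Fintype X] [DecidableEq X] [Fintype A] [DecidableEq A]
    [DecidableEq J] [Fintype Θ]
    (D₀ : Finset X) (φ₀ : X → A) (n M : ℕ)
    (D : Θ → J → Finset X) (φ : Θ → J → X → A) (S : Θ → Finset J)
    (hM : ∀ θ, M ≤ (S θ).card)
    (hn : ∀ θ, ∀ j ∈ S θ, (D θ j).card ≤ n) (h0 : ∀ θ, ∀ j ∈ S θ, Disjoint (D θ j) D₀)
    (hd : ∀ θ, ∀ i ∈ S θ, ∀ j ∈ S θ, i ≠ j → Disjoint (D θ i) (D θ j))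
    (hA : 0 < Fintype.card A)
    (hnum : Fintype.card Θ * (Fintype.card A ^ n - 1) ^ M < (Fintype.card A ^ n) ^ M) :
    ∃ u : X → A, (∀ x ∈ D₀, u x = φ₀ x) ∧ ∀ θ, ∃ j ∈ S θ, ∀ x ∈ D θ j, u x = φ θ j x := by
  classical
  have hS : ∀ θ, ∃ T ⊆ S θ, T.card = M := fun θ => Finset.exists_subset_card_eq (hM θ)
  choose T hTS hTM using hS
  by_contra hcon
  push Not at hcon
  set q := Fintype.card A ^ n with hq
  have hq1 : 1 ≤ q := Nat.one_le_pow _ _ hA
  set B0 : Finset (X → A) := Finset.univ.filter (fun u => ∀ x ∈ D₀, u x = φ₀ x) with hB0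
  have hbase : ∀ θ, bad D₀ φ₀ (D θ) (φ θ) ∅ = B0 := by
    intro θ
    ext u
    simp [bad, hB0]
  have hB0pos : 0 < B0.card := by
    apply Finset.card_pos.2
    exact ⟨φ₀, by simp [hB0]⟩
  have hcard : ∀ θ, q ^ M * (bad D₀ φ₀ (D θ) (φ θ) (T θ)).card ≤ (q - 1) ^ M * B0.card := by
    intro θ
    have := card_bad D₀ φ₀ (D θ) (φ θ) n (T θ) (fun j hj => hn θ j (hTS θ hj))
      (fun j hj => h0 θ j (hTS θ hj))
      (fun i hi j hj hij => hd θ i (hTS θ hi) j (hTS θ hj) hij) hA
    rw [hTM, hbase] at this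
    exact this
  have hcover : B0 ⊆ Finset.univ.biUnion (fun θ => bad D₀ φ₀ (D θ) (φ θ) (T θ)) := by
    intro u hu
    rw [hB0, Finset.mem_filter] at hu
    obtain ⟨θ, hθ⟩ := hcon u hu.2
    rw [Finset.mem_biUnion]
    refine ⟨θ, Finset.mem_univ _, ?_⟩
    rw [bad, Finset.mem_filter]
    refine ⟨Finset.mem_univ _, hu.2, ?_⟩
    intro j hj hall
    obtain ⟨x, hx, hne⟩ := hθ j (hTS θ hj)
    exact hne (hall x hx)
  have h1 : B0.card ≤ ∑ θ, (bad D₀ φ₀ (D θ) (φ θ) (T θ)).card :=
    (Finset.card_le_card hcover).trans Finset.card_biUnion_le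
  have h2 : q ^ M * B0.card ≤ Fintype.card Θ * (q - 1) ^ M * B0.card := by
    calc q ^ M * B0.card ≤ q ^ M * ∑ θ, (bad D₀ φ₀ (D θ) (φ θ) (T θ)).card :=
          Nat.mul_le_mul_left _ h1
      _ = ∑ θ, q ^ M * (bad D₀ φ₀ (D θ) (φ θ) (T θ)).card := Finset.mul_sum _ _ _
      _ ≤ ∑ _θ : Θ, (q - 1) ^ M * B0.card := Finset.sum_le_sum (fun θ _ => hcard θ)
      _ = Fintype.card Θ * (q - 1) ^ M * B0.card := by
          rw [Finset.sum_const, Finset.card_univ, smul_eq_mul, mul_assoc]
  have h3 : q ^ M ≤ Fintype.card Θ * (q - 1) ^ M := Nat.le_of_mul_le_mul_right h2 hB0pos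
  omega

/-- A maximal pairwise non-conflicting subset is large. -/
lemma exists_indep {J : Type*} [DecidableEq J] (G : Finset J) (r : J → J → Prop)
    (hrr : ∀ i, r i i) (hsymm : ∀ i j, r i j → r j i) [DecidableRel r] (d : ℕ)
    (hd : ∀ i ∈ G, (G.filter (fun j => r i j)).card ≤ d) :
    ∃ S ⊆ G, G.card ≤ d * S.card ∧ ∀ i ∈ S, ∀ j ∈ S, i ≠ j → ¬ r i j := by
  obtain ⟨S, hS, hmax⟩ := Finset.exists_max_image
    (G.powerset.filter (fun S => ∀ i ∈ S, ∀ j ∈ S, i ≠ j → ¬ r i j)) Finset.card
    ⟨∅, by simp⟩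
  rw [Finset.mem_filter, Finset.mem_powerset] at hS
  refine ⟨S, hS.1, ?_, hS.2⟩
  have hcov : G ⊆ S.biUnion (fun i => G.filter (fun j => r i j)) := by
    intro j hj
    rw [Finset.mem_biUnion]
    by_contra hno
    push Not at hno
    have hjr : ∀ i ∈ S, ¬ r i j := by
      intro i hi hr
      exact hno i hi (Finset.mem_filter.2 ⟨hj, hr⟩)
    have hjS : j ∉ S := fun h => hjr j h (hrr j)
    have := hmax (insert j S) (by
      rw [Finset.mem_filter, Finset.mem_powerset]
      refine ⟨Finset.insert_subset hj hS.1, ?_⟩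
      intro a ha b hb hab
      rw [Finset.mem_insert] at ha hb
      rcases ha with rfl | ha
      · rcases hb with rfl | hb
        · exact absurd rfl hab
        · exact fun h => hjr b hb (hsymm _ _ h)
      · rcases hb with rfl | hb
        · exact hjr a ha
        · exact hS.2 a ha b hb hab)
    rw [Finset.card_insert_of_notMem hjS] at this
    omega
  calc G.card ≤ (S.biUnion (fun i => G.filter (fun j => r i j))).card := Finset.card_le_card hcov
    _ ≤ ∑ i ∈ S, (G.filter (fun j => r i j)).card := Finset.card_biUnion_le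
    _ ≤ ∑ _i ∈ S, d := Finset.sum_le_sum (fun i hi => hd i (hS.1 hi))
    _ = d * S.card := by rw [Finset.sum_const, smul_eq_mul, mul_comm]

end V11289.CS
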