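import Pool.Agent.V11289.CS.Count

/-! The extension lemma for MP_be5e04_al: in a large finite group `K` with a subgroup `H` and central
subgroup `C` there is a left-`H`-equivariant map `τ : K → H` with strong hitting properties. -/

namespace V11289.CS

open Finset

lemma exists_rep {K : Type*} [Group K] (H : Subgroup K) :
    ∃ ρ : K → K, (∀ k, k * (ρ k)⁻¹ ∈ H) ∧ (∀ k k', k * k'⁻¹ ∈ H → ρ k = ρ k') := by
  classical
  refine ⟨fun k => (Quotient.mk (QuotientGroup.rightRel H) k).out, ?_, ?_⟩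
  · intro k
    have h : (QuotientGroup.rightRel H) ((Quotient.mk (QuotientGroup.rightRel H) k).out) k :=
      Quotient.mk_out (s := QuotientGroup.rightRel H) k
    rw [QuotientGroup.rightRel_apply] at h
    exact h
  · intro k k' h
    have : Quotient.mk (QuotientGroup.rightRel H) k = Quotient.mk (QuotientGroup.rightRel H) k' := by
      apply Quotient.sound
      change (QuotientGroup.rightRel H) k k'
      rw [QuotientGroup.rightRel_apply]
      have := H.inv_mem h
      simpa using this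
    simp only [this]

theorem ext_lemma {K : Type*} [Group K] [Fintype K] (H C : Subgroup K)
    (hC : ∀ z ∈ C, ∀ k : K, z * k = k * z)
    (y : K → Bool) (a : Bool → K) (ha : ∀ c, a c ∈ H)
    (hy : ∀ c, ∀ z ∈ C, z ∈ H → y (z * a c) = c)
    (k₀ : Bool → K) (hk : ∀ h ∈ H, ∀ z ∈ C, k₀ true ≠ h * z * k₀ false)
    (n e M : ℕ) (hn0 : 0 < n)
    (he1 : ∀ g, g ∉ C → Nat.card {f : K // f * g * f⁻¹ ∈ H} ≤ e)
    (he2 : Nat.card H * Nat.card C ≤ e)
    (heN : 2 * (n * n + 2 * n) * e ≤ Fintype.card K)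
    (hM : 2 * (n * n * Nat.card H * M) ≤ Fintype.card K)
    (hnum : 2 * Fintype.card K ^ n * (Nat.card H ^ n - 1) ^ M < (Nat.card H ^ n) ^ M) :
    ∃ τ : K → K, (∀ k, τ k ∈ H) ∧ (∀ h ∈ H, ∀ k, τ (h * k) = h * τ k) ∧
      (∀ t : Fin n → K, ∀ c, ∃ f, ∀ i, y (τ (f * t i)) = c) ∧
      (∀ c, ∃ k, ∀ z ∈ C, y (τ (z * k)) = c) := by
  classical
  obtain ⟨ρ, hρ1, hρ2⟩ := exists_rep H
  have hρ3 : ∀ k k', ρ k = ρ k' → k * k'⁻¹ ∈ H := by
    intro k k' h
    have h1 := hρ1 k
    have h2 := H.inv_mem (hρ1 k')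
    rw [h] at h1
    have := H.mul_mem h1 h2
    simpa [mul_assoc] using this
  -- good elements for a tuple
  let badA : (Fin n → K) → Finset K := fun t =>
    univ.biUnion (fun p : Fin n × Fin n => if t p.1 * (t p.2)⁻¹ ∈ C then ∅ else
      univ.filter (fun f => f * (t p.1 * (t p.2)⁻¹) * f⁻¹ ∈ H))
  let badB : (Fin n → K) → Finset K := fun t =>
    univ.biUnion (fun p : Fin n × Bool =>
      univ.image (fun q : H × C => (q.1 : K) * (q.2 : K) * k₀ p.2 * (t p.1)⁻¹))
  let good : (Fin n → K) → Finset K := fun t => univ \ (badA t ∪ badB t)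
  have hbadA : ∀ t, (badA t).card ≤ n * n * e := by
    intro t
    refine Finset.card_biUnion_le.trans ?_
    refine (Finset.sum_le_sum (g := fun _ => e) ?_).trans ?_
    · intro p _
      split_ifs with h
      · simp
      · have := he1 _ h
        rwa [Nat.card_eq_fintype_card, Fintype.card_subtype] at this
    · simp
  have hbadB : ∀ t, (badB t).card ≤ 2 * n * e := by
    intro t
    refine Finset.card_biUnion_le.trans ?_
    refine (Finset.sum_le_sum (g := fun _ => e) ?_).trans ?_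
    · intro p _
      refine Finset.card_image_le.trans ?_
      rw [Finset.card_univ, Fintype.card_prod, ← Nat.card_eq_fintype_card,
        ← Nat.card_eq_fintype_card]
      exact he2
    · simp
      exact le_of_eq (by ring)
  have hgood : ∀ t, Fintype.card K ≤ 2 * (good t).card := by
    intro t
    have h1 : (good t).card = Fintype.card K - (badA t ∪ badB t).card := by
      rw [Finset.card_sdiff_of_subset (Finset.subset_univ _), Finset.card_univ]
    have h2 := Finset.card_union_le (badA t) (badB t)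
    have h3 := hbadA t
    have h4 := hbadB t
    have h5 : 2 * (badA t ∪ badB t).card ≤ Fintype.card K := by
      calc 2 * (badA t ∪ badB t).card ≤ 2 * (n * n * e + 2 * n * e) := by omega
        _ = 2 * (n * n + 2 * n) * e := by ring
        _ ≤ _ := heN
    omega
  have hgoodA : ∀ t, ∀ f ∈ good t, ∀ i j, f * (t i * (t j)⁻¹) * f⁻¹ ∈ H → t i * (t j)⁻¹ ∈ C := by
    intro t f hf i j hH
    by_contra hCn
    have : f ∈ badA t := by
      refine Finset.mem_biUnion.2 ⟨(i, j), Finset.mem_univ _, ?_⟩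
      dsimp only
      rw [if_neg hCn, Finset.mem_filter]
      exact ⟨Finset.mem_univ _, hH⟩
    have hf' := (Finset.mem_sdiff.1 hf).2
    exact hf' (Finset.mem_union_left _ this)
  have hgoodB : ∀ t, ∀ f ∈ good t, ∀ i c, ∀ h ∈ H, ∀ z ∈ C, f * t i ≠ h * z * k₀ c := by
    intro t f hf i c h hh z hz heq
    have : f ∈ badB t := by
      refine Finset.mem_biUnion.2 ⟨(i, c), Finset.mem_univ _, ?_⟩
      refine Finset.mem_image.2 ⟨(⟨h, hh⟩, ⟨z, hz⟩), Finset.mem_univ _, ?_⟩
      dsimp only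
      rw [← heq]
      group
    have hf' := (Finset.mem_sdiff.1 hf).2
    exact hf' (Finset.mem_union_right _ this)
  -- independent families
  have hindep : ∀ t : Fin n → K, ∃ S ⊆ good t, M ≤ S.card ∧
      ∀ f ∈ S, ∀ f' ∈ S, f ≠ f' → ¬ ∃ i j, ρ (f * t i) = ρ (f' * t j) := by
    intro t
    obtain ⟨S, hS, hcard, hS2⟩ := exists_indep (good t)
      (fun f f' => ∃ i j, ρ (f * t i) = ρ (f' * t j))
      (fun f => ⟨⟨0, hn0⟩, ⟨0, hn0⟩, rfl⟩) (fun f f' ⟨i, j, h⟩ => ⟨j, i, h.symm⟩)
      (n * n * Nat.card H) (by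
        intro f _
        have : (good t).filter (fun f' => ∃ i j, ρ (f * t i) = ρ (f' * t j)) ⊆
            univ.image (fun q : (Fin n × Fin n) × H => (q.2 : K) * (f * t q.1.1) * (t q.1.2)⁻¹) := by
          intro f' hf'
          obtain ⟨_, i, j, hij⟩ := Finset.mem_filter.1 hf'
          have h1 := hρ3 _ _ hij.symm
          refine Finset.mem_image.2 ⟨((i, j), ⟨_, h1⟩), Finset.mem_univ _, ?_⟩
          dsimp only
          group
        refine (Finset.card_le_card this).trans (Finset.card_image_le.trans ?_)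
        rw [Finset.card_univ, Fintype.card_prod, Fintype.card_prod, Fintype.card_fin,
          Nat.card_eq_fintype_card])
    refine ⟨S, hS, ?_, hS2⟩
    have hHpos : 0 < Nat.card H := Nat.card_pos
    have hd : 0 < n * n * Nat.card H := by positivity
    have h1 := hgood t
    have h2 : n * n * Nat.card H * M ≤ n * n * Nat.card H * S.card := by omega
    exact Nat.le_of_mul_le_mul_left h2 hd
  choose S hSgood hSM hSind using hindep
  -- partial assignments
  let D : (Fin n → K) × Bool → K → Finset K := fun θ f => univ.image (fun i => ρ (f * θ.1 i))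
  let φ : (Fin n → K) × Bool → K → K → H := fun θ f r =>
    if h : ∃ i, ρ (f * θ.1 i) = r then
      ⟨(f * θ.1 h.choose * r⁻¹)⁻¹ * a θ.2, H.mul_mem (H.inv_mem (by
        have h1 := hρ1 (f * θ.1 h.choose)
        have h2 := h.choose_spec
        rw [h2] at h1
        exact h1)) (ha _)⟩
    else 1
  let D₀ : Finset K := univ.image (fun p : Bool × C => ρ ((p.2 : K) * k₀ p.1))
  let φ₀ : K → H := fun r =>
    if h : ∃ p : Bool × C, ρ ((p.2 : K) * k₀ p.1) = r then
      ⟨((h.choose.2 : K) * k₀ h.choose.1 * r⁻¹)⁻¹ * a h.choose.1, H.mul_mem (H.inv_mem (by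
        have h1 := hρ1 ((h.choose.2 : K) * k₀ h.choose.1)
        have h2 := h.choose_spec
        rw [h2] at h1
        exact h1)) (ha _)⟩
    else 1
  obtain ⟨u, hu0, hu⟩ := exists_fun D₀ φ₀ n M D φ (fun θ => S θ.1)
    (fun θ => hSM θ.1)
    (by
      intro θ f _
      refine Finset.card_image_le.trans ?_
      simp)
    (by
      intro θ f hf
      rw [Finset.disjoint_left]
      intro x hx hx0
      obtain ⟨i, _, hi⟩ := Finset.mem_image.1 hx
      obtain ⟨p, _, hp⟩ := Finset.mem_image.1 hx0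
      have h1 := hρ3 _ _ (hi.trans hp.symm)
      refine hgoodB θ.1 f (hSgood _ hf) i p.1 _ h1 p.2 p.2.2 ?_
      group)
    (by
      intro θ f hf f' hf' hne
      rw [Finset.disjoint_left]
      intro x hx hx0
      obtain ⟨i, _, hi⟩ := Finset.mem_image.1 hx
      obtain ⟨j, _, hj⟩ := Finset.mem_image.1 hx0
      exact hSind θ.1 f hf f' hf' hne ⟨i, j, hi.trans hj.symm⟩)
    (by
      rw [← Nat.card_eq_fintype_card]
      exact Nat.card_pos)
    (by
      rw [Fintype.card_prod, Fintype.card_bool, Fintype.card_fun, Fintype.card_fin,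
        ← Nat.card_eq_fintype_card (α := H)]
      calc _ = 2 * Fintype.card K ^ n * (Nat.card H ^ n - 1) ^ M := by ring
        _ < _ := hnum)
  refine ⟨fun k => k * (ρ k)⁻¹ * u (ρ k), ?_, ?_, ?_, ?_⟩
  · intro k
    exact H.mul_mem (hρ1 k) (u (ρ k)).2
  · intro h hh k
    have : ρ (h * k) = ρ k := hρ2 _ _ (by simpa using hh)
    simp only [this, mul_assoc]
  · intro t c
    obtain ⟨f, hf, hfu⟩ := hu (t, c)
    refine ⟨f, fun i => ?_⟩
    have hmem : ρ (f * t i) ∈ D (t, c) f := Finset.mem_image.2 ⟨i, Finset.mem_univ _, rfl⟩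
    have hval := hfu _ hmem
    have hex : ∃ i', ρ (f * t i') = ρ (f * t i) := ⟨i, rfl⟩
    have hφ : (φ (t, c) f (ρ (f * t i)) : K) = (f * t hex.choose * (ρ (f * t i))⁻¹)⁻¹ * a c := by
      simp only [φ]
      rw [dif_pos hex]
    have hch := hex.choose_spec
    set i' := hex.choose with hi'
    simp only
    rw [hval, hφ]
    have hw : f * (t i * (t i')⁻¹) * f⁻¹ ∈ H := by
      have := hρ3 _ _ hch.symm
      simpa [mul_assoc] using this
    have hz := hgoodA t f (hSgood _ hf) i i' hw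
    have hcomm : f * (t i * (t i')⁻¹) * f⁻¹ = t i * (t i')⁻¹ := by
      rw [← hC _ hz f]
      group
    have e1 : f * t i * (ρ (f * t i))⁻¹ * ((f * t i' * (ρ (f * t i))⁻¹)⁻¹ * a c)
        = f * (t i * (t i')⁻¹) * f⁻¹ * a c := by group
    rw [e1, hcomm]
    exact hy c _ hz (by rw [← hcomm]; exact hw)
  · intro c
    refine ⟨k₀ c, ?_⟩
    intro z hz
    have hmem : ρ (z * k₀ c) ∈ D₀ := Finset.mem_image.2 ⟨(c, ⟨z, hz⟩), Finset.mem_univ _, rfl⟩
    have hval := hu0 _ hmem
    have hex : ∃ p : Bool × C, ρ ((p.2 : K) * k₀ p.1) = ρ (z * k₀ c) := ⟨(c, ⟨z, hz⟩), rfl⟩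
    have hφ : (φ₀ (ρ (z * k₀ c)) : K)
        = ((hex.choose.2 : K) * k₀ hex.choose.1 * (ρ (z * k₀ c))⁻¹)⁻¹ * a hex.choose.1 := by
      simp only [φ₀]
      rw [dif_pos hex]
    have hch := hex.choose_spec
    set p := hex.choose with hp
    obtain ⟨c', z', hz'⟩ := p
    simp only at hch hφ ⊢
    rw [hval, hφ]
    have hw := hρ3 _ _ hch.symm
    have hcc : c' = c := by
      by_contra hne
      rcases c with _ | _ <;> rcases c' with _ | _
      · exact hne rfl
      · apply hk (z * k₀ false * (z' * k₀ true)⁻¹)⁻¹ (H.inv_mem hw) (z'⁻¹ * z)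
          (C.mul_mem (C.inv_mem hz') hz)
        have h1 := hC _ hz' (k₀ true)
        have h2 := hC _ (C.inv_mem hz') (z * k₀ false)
        calc k₀ true = (z' * k₀ true) * z'⁻¹ := by rw [h1]; group
          _ = (z' * k₀ true) * (z * k₀ false)⁻¹ * ((z * k₀ false) * z'⁻¹) := by group
          _ = (z' * k₀ true) * (z * k₀ false)⁻¹ * (z'⁻¹ * (z * k₀ false)) := by rw [h2]
          _ = _ := by group
      · apply hk (z * k₀ true * (z' * k₀ false)⁻¹) hw (z⁻¹ * z')
          (C.mul_mem (C.inv_mem hz) hz')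
        have h1 := hC _ hz (k₀ true)
        have h2 := hC _ (C.inv_mem hz) (z' * k₀ false)
        calc k₀ true = (z * k₀ true) * z⁻¹ := by rw [h1]; group
          _ = (z * k₀ true) * (z' * k₀ false)⁻¹ * ((z' * k₀ false) * z⁻¹) := by group
          _ = (z * k₀ true) * (z' * k₀ false)⁻¹ * (z⁻¹ * (z' * k₀ false)) := by rw [h2]
          _ = _ := by group
      · exact hne rfl
    subst hcc
    have e1 : z * k₀ c' * (ρ (z * k₀ c'))⁻¹ * ((z' * k₀ c' * (ρ (z * k₀ c'))⁻¹)⁻¹ * a c')
        = z * z'⁻¹ * a c' := by group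
    rw [e1]
    refine hy c' _ (C.mul_mem hz (C.inv_mem hz')) ?_
    have : z * k₀ c' * (z' * k₀ c')⁻¹ = z * z'⁻¹ := by group
    rwa [this] at hw

end V11289.CS
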