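import Pool.Agent.V11289.CS.Heis

/-! The field `F = AlgebraicClosure (ZMod 2)` as an increasing union of finite subrings. -/

namespace V11289.CS

open Polynomial

/-- An algebraic closure of the field with two elements. -/
abbrev F : Type := AlgebraicClosure (ZMod 2)

instance : CharP F 2 := inferInstance

/-- The subring of `x` with `x ^ (2 ^ m!) = x`. -/
noncomputable def S (m : ℕ) : Subring F where
  carrier := {x | x ^ (2 ^ m.factorial) = x}
  mul_mem' := by
    intro x y hx hy
    change (x * y) ^ _ = x * y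
    rw [mul_pow, show x ^ (2 ^ m.factorial) = x from hx, show y ^ (2 ^ m.factorial) = y from hy]
  one_mem' := one_pow _
  add_mem' := by
    intro x y hx hy
    change (x + y) ^ _ = x + y
    rw [add_pow_char_pow, show x ^ (2 ^ m.factorial) = x from hx,
      show y ^ (2 ^ m.factorial) = y from hy]
  zero_mem' := zero_pow (by positivity)
  neg_mem' := by
    intro x hx
    change (-x) ^ _ = -x
    rw [CharTwo.neg_eq]
    exact hx

lemma mem_S {m : ℕ} {x : F} : x ∈ S m ↔ x ^ (2 ^ m.factorial) = x := Iff.rfl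

lemma pow_iter {x : F} {a : ℕ} (h : x ^ (2 ^ a) = x) (k : ℕ) : x ^ (2 ^ (a * k)) = x := by
  induction k with
  | zero => simp
  | succ k ih =>
    rw [Nat.mul_succ, pow_add, pow_mul, ih, h]

lemma S_mono {m n : ℕ} (h : m ≤ n) : S m ≤ S n := by
  intro x hx
  obtain ⟨k, hk⟩ := Nat.factorial_dvd_factorial h
  rw [mem_S] at hx ⊢
  rw [hk]
  exact pow_iter hx k

instance finite_S (m : ℕ) : Finite (S m) := by
  have h2 : 1 < 2 ^ m.factorial := Nat.one_lt_two_pow (Nat.factorial_ne_zero m)
  have hp : (X ^ (2 ^ m.factorial) - X : F[X]) ≠ 0 := FiniteField.X_pow_card_sub_X_ne_zero F h2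
  have : (S m : Set F) ⊆ (X ^ (2 ^ m.factorial) - X : F[X]).rootSet F := by
    intro x hx
    rw [Polynomial.mem_rootSet]
    refine ⟨hp, ?_⟩
    simp only [map_sub, map_pow, aeval_X]
    rw [mem_S.1 hx, sub_self]
  exact ((Polynomial.rootSet_finite _ F).subset this).to_subtype

lemma exists_S (x : F) : ∃ m, x ∈ S m := by
  have hx : IsIntegral (ZMod 2) x := Algebra.IsIntegral.isIntegral x
  have hfd : FiniteDimensional (ZMod 2) (IntermediateField.adjoin (ZMod 2) {x}) :=
    IntermediateField.adjoin.finiteDimensional hx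
  have hfin : Finite (IntermediateField.adjoin (ZMod 2) {x}) :=
    Module.finite_of_finite (ZMod 2)
  have : Fintype (IntermediateField.adjoin (ZMod 2) {x}) := Fintype.ofFinite _
  set d := Module.finrank (ZMod 2) (IntermediateField.adjoin (ZMod 2) {x}) with hd
  have hcard : Fintype.card (IntermediateField.adjoin (ZMod 2) {x}) = 2 ^ d := by
    rw [Module.card_eq_pow_finrank (K := ZMod 2), ZMod.card]
  have hdpos : 0 < d := Module.finrank_pos
  have h1 := FiniteField.pow_card (⟨x, IntermediateField.mem_adjoin_simple_self _ x⟩ :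
    IntermediateField.adjoin (ZMod 2) {x})
  rw [hcard] at h1
  have h2 : x ^ (2 ^ d) = x := by
    have := congrArg Subtype.val h1
    simpa using this
  refine ⟨d, ?_⟩
  obtain ⟨k, hk⟩ := Nat.dvd_factorial hdpos le_rfl
  rw [mem_S, hk]
  exact pow_iter h2 k

lemma exists_large (N m₀ : ℕ) : ∃ m, m₀ ≤ m ∧ N ≤ Nat.card (S m) := by
  have hinf : Infinite F := inferInstance
  obtain ⟨T, hT⟩ := Infinite.exists_subset_card_eq F N
  choose f hf using exists_S
  set m := max m₀ (T.sup f) with hm
  refine ⟨m, le_max_left _ _, ?_⟩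
  have hsub : (T : Set F) ⊆ S m := by
    intro x hx
    exact S_mono ((Finset.le_sup hx).trans (le_max_right _ _)) (hf x)
  have hfin : (S m : Set F).Finite := Set.finite_coe_iff.1 (finite_S m)
  have := Set.ncard_le_ncard hsub hfin
  rw [Set.ncard_coe_finset, hT] at this
  exact this

lemma exists_sub (g : Heis F) : ∃ m, g ∈ Heis.sub (S m) := by
  obtain ⟨m1, h1⟩ := exists_S g.a
  obtain ⟨m2, h2⟩ := exists_S g.b
  obtain ⟨m3, h3⟩ := exists_S g.c
  refine ⟨max m1 (max m2 m3), S_mono (le_max_left _ _) h1,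
    S_mono ((le_max_left _ _).trans (le_max_right _ _)) h2,
    S_mono ((le_max_right _ _).trans (le_max_right _ _)) h3⟩

instance : Countable (Heis F) := by
  have h : (Set.univ : Set (Heis F)) ⊆ ⋃ m, (Heis.sub (S m) : Set (Heis F)) := by
    intro g _
    obtain ⟨m, hm⟩ := exists_sub g
    exact Set.mem_iUnion.2 ⟨m, hm⟩
  have hc : (⋃ m, (Heis.sub (S m) : Set (Heis F))).Countable :=
    Set.countable_iUnion (fun m =>
      (Set.finite_coe_iff.1 (Heis.finite_sub (S m)) : (Heis.sub (S m) : Set (Heis F)).Finite).countable)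
  exact Set.countable_univ_iff.1 (hc.mono h)

end V11289.CS
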