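import Mathlib

/-! The Heisenberg group over a commutative ring and the locally finite field `AlgebraicClosure (ZMod 2)`. -/

namespace V11289.CS

/-- The Heisenberg group over `R`: triples `(a,b,c)` with
`(a,b,c)(a',b',c') = (a+a', b+b', c+c'+ab')`. -/
@[ext] structure Heis (R : Type*) where
  a : R
  b : R
  c : R

namespace Heis

variable {R : Type*} [CommRing R]

instance : Mul (Heis R) := ⟨fun x y => ⟨x.a + y.a, x.b + y.b, x.c + y.c + x.a * y.b⟩⟩
instance : One (Heis R) := ⟨⟨0, 0, 0⟩⟩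
instance : Inv (Heis R) := ⟨fun x => ⟨-x.a, -x.b, -x.c + x.a * x.b⟩⟩

@[simp] lemma mul_a (x y : Heis R) : (x * y).a = x.a + y.a := rfl
@[simp] lemma mul_b (x y : Heis R) : (x * y).b = x.b + y.b := rfl
@[simp] lemma mul_c (x y : Heis R) : (x * y).c = x.c + y.c + x.a * y.b := rfl
@[simp] lemma one_a : (1 : Heis R).a = 0 := rfl
@[simp] lemma one_b : (1 : Heis R).b = 0 := rfl
@[simp] lemma one_c : (1 : Heis R).c = 0 := rfl
@[simp] lemma inv_a (x : Heis R) : (x⁻¹).a = -x.a := rfl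
@[simp] lemma inv_b (x : Heis R) : (x⁻¹).b = -x.b := rfl
@[simp] lemma inv_c (x : Heis R) : (x⁻¹).c = -x.c + x.a * x.b := rfl

instance : Group (Heis R) := Group.ofLeftAxioms
  (by intro x y z; ext <;> simp <;> ring)
  (by intro x; ext <;> simp)
  (by intro x; ext <;> simp)

/-- The subgroup of triples with entries in a subring. -/
def sub (S : Subring R) : Subgroup (Heis R) where
  carrier := {g | g.a ∈ S ∧ g.b ∈ S ∧ g.c ∈ S}
  mul_mem' := by
    rintro x y ⟨h1, h2, h3⟩ ⟨h4, h5, h6⟩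
    exact ⟨S.add_mem h1 h4, S.add_mem h2 h5, S.add_mem (S.add_mem h3 h6) (S.mul_mem h1 h5)⟩
  one_mem' := ⟨S.zero_mem, S.zero_mem, S.zero_mem⟩
  inv_mem' := by
    rintro x ⟨h1, h2, h3⟩
    exact ⟨S.neg_mem h1, S.neg_mem h2, S.add_mem (S.neg_mem h3) (S.mul_mem h1 h2)⟩

lemma mem_sub {S : Subring R} {g : Heis R} : g ∈ sub S ↔ g.a ∈ S ∧ g.b ∈ S ∧ g.c ∈ S := Iff.rfl

/-- The central subgroup of triples `(0,0,c)`. -/
def Zc (R : Type*) [CommRing R] : Subgroup (Heis R) where
  carrier := {g | g.a = 0 ∧ g.b = 0}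
  mul_mem' := by
    rintro x y ⟨h1, h2⟩ ⟨h4, h5⟩
    exact ⟨by simp [h1, h4], by simp [h2, h5]⟩
  one_mem' := ⟨rfl, rfl⟩
  inv_mem' := by
    rintro x ⟨h1, h2⟩
    exact ⟨by simp [h1], by simp [h2]⟩

lemma mem_Zc {g : Heis R} : g ∈ Zc R ↔ g.a = 0 ∧ g.b = 0 := Iff.rfl

lemma Zc_comm {z : Heis R} (hz : z ∈ Zc R) (k : Heis R) : z * k = k * z := by
  obtain ⟨h1, h2⟩ := hz
  ext
  · simp [h1]
  · simp [h2]
  · simp [h1, h2, add_comm]

lemma sub_mono {S T : Subring R} (h : S ≤ T) : sub S ≤ sub T :=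
  fun _ ⟨h1, h2, h3⟩ => ⟨h h1, h h2, h h3⟩

lemma card_sub (S : Subring R) : Nat.card (sub S) = Nat.card S ^ 3 := by
  have e : sub S ≃ (S × S) × S :=
    { toFun := fun g => ((⟨g.1.a, g.2.1⟩, ⟨g.1.b, g.2.2.1⟩), ⟨g.1.c, g.2.2.2⟩)
      invFun := fun p => ⟨⟨p.1.1, p.1.2, p.2⟩, p.1.1.2, p.1.2.2, p.2.2⟩
      left_inv := fun g => rfl
      right_inv := fun p => rfl }
  rw [Nat.card_congr e, Nat.card_prod, Nat.card_prod]
  ring

instance finite_sub (S : Subring R) [Finite S] : Finite (sub S) := by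
  have e : sub S ≃ (S × S) × S :=
    { toFun := fun g => ((⟨g.1.a, g.2.1⟩, ⟨g.1.b, g.2.2.1⟩), ⟨g.1.c, g.2.2.2⟩)
      invFun := fun p => ⟨⟨p.1.1, p.1.2, p.2⟩, p.1.1.2, p.1.2.2, p.2.2⟩
      left_inv := fun g => rfl
      right_inv := fun p => rfl }
  exact Finite.of_equiv _ e.symm

lemma conj_eq (f g : Heis R) :
    f * g * f⁻¹ = ⟨g.a, g.b, g.c + f.a * g.b - g.a * f.b⟩ := by
  ext
  · simp
  · simp
  · simp; ring

theorem isNilpotent : Group.IsNilpotent (Heis R) := by
  let f : Heis R →* Multiplicative (R × R) :=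
    { toFun := fun g => Multiplicative.ofAdd (g.a, g.b)
      map_one' := rfl
      map_mul' := fun x y => rfl }
  refine Subgroup.isNilpotent_of_ker_le_center f ?_
  intro g hg
  rw [MonoidHom.mem_ker] at hg
  have h1 : (g.a, g.b) = (0, 0) := hg
  rw [Prod.mk.injEq] at h1
  rw [Subgroup.mem_center_iff]
  intro k
  exact (Zc_comm ⟨h1.1, h1.2⟩ k).symm

/-- No subgroup of finite index is abelian, over an infinite domain. -/
theorem not_virtually_abelian [IsDomain R] [Infinite R] :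
    ¬ ∃ H : Subgroup (Heis R), H.FiniteIndex ∧ ∀ x ∈ H, ∀ y ∈ H, x * y = y * x := by
  rintro ⟨H, hH, hab⟩
  -- homomorphisms from the additive group
  let fa : Multiplicative R →* Heis R :=
    { toFun := fun r => ⟨Multiplicative.toAdd r, 0, 0⟩
      map_one' := rfl
      map_mul' := fun x y => by ext <;> simp }
  let fb : Multiplicative R →* Heis R :=
    { toFun := fun r => ⟨0, Multiplicative.toAdd r, 0⟩
      map_one' := rfl
      map_mul' := fun x y => by ext <;> simp }
  have key : ∀ f : Multiplicative R →* Heis R, ∃ r : Multiplicative R, r ≠ 1 ∧ f r ∈ H := by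
    intro f
    have hfin : (H.comap f).FiniteIndex := by
      constructor
      rw [Subgroup.index_comap]
      exact (Subgroup.instFiniteIndex_subgroupOf H f.range).index_ne_zero
    by_contra hno
    push Not at hno
    have hbot : H.comap f = ⊥ := by
      rw [eq_bot_iff]
      intro r hr
      by_contra hr1
      exact hno r (by simpa using hr1) hr
    rw [hbot] at hfin
    have := hfin.index_ne_zero
    rw [Subgroup.index_bot] at this
    apply this
    have : Infinite (Multiplicative R) := inferInstance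
    exact Nat.card_eq_zero_of_infinite
  obtain ⟨r, hr, hrH⟩ := key fa
  obtain ⟨s, hs, hsH⟩ := key fb
  have h := hab _ hrH _ hsH
  have hc := congrArg Heis.c h
  simp [fa, fb] at hc
  rcases hc with hc | hc
  · exact hr hc
  · exact hs hc

end Heis

end V11289.CS
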