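import Pool.Agent.V11289.CS.Step

namespace V11289.CS

open Heis

/-- The initial stage. -/
noncomputable def st0 : St where
  m := 0
  y := fun g => by
    classical
    exact decide (g.a = 0)
  a := fun c => if c then 1 else ⟨1, 0, 0⟩
  ha := by
    intro c
    rcases c with _ | _
    · exact ⟨(S 0).one_mem, (S 0).zero_mem, (S 0).zero_mem⟩
    · exact (sub (S 0)).one_mem
  hy := by
    intro c z hz _
    rcases c with _ | _
    · simp [hz.1]
    · simp [hz.1]

noncomputable def nxt (s : St) (k : ℕ) : St := (step s (k + 1) (Nat.succ_pos k)).choose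

lemma nxt_spec (s : St) (k : ℕ) : ∃ (τ : Heis F → Heis F),
    s.m < (nxt s k).m ∧ (∀ g ∈ sub (S (nxt s k).m), τ g ∈ sub (S s.m)) ∧
    (∀ h ∈ sub (S s.m), ∀ g ∈ sub (S (nxt s k).m), τ (h * g) = h * τ g) ∧
    (∀ h ∈ sub (S s.m), τ h = h) ∧
    (∀ g ∈ sub (S (nxt s k).m), (nxt s k).y g = s.y (τ g)) ∧
    (∀ t : Fin (k + 1) → Heis F, (∀ i, t i ∈ sub (S (nxt s k).m)) → ∀ c,
      ∃ f ∈ sub (S (nxt s k).m), ∀ i, (nxt s k).y (f * t i) = c) :=
  (step s (k + 1) (Nat.succ_pos k)).choose_spec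

/-- The sequence of stages. -/
noncomputable def seq : ℕ → St
  | 0 => st0
  | k + 1 => nxt (seq k) k

/-- The finite subgroup at stage `k`. -/
noncomputable def GG (k : ℕ) : Subgroup (Heis F) := sub (S (seq k).m)

lemma seq_lt (k : ℕ) : (seq k).m < (seq (k + 1)).m := by
  obtain ⟨τ, h, _⟩ := nxt_spec (seq k) k
  exact h

lemma le_seq (k : ℕ) : k ≤ (seq k).m := by
  induction k with
  | zero => exact Nat.zero_le _
  | succ k ih =>
    have := seq_lt k
    omega

lemma GG_succ (k : ℕ) : GG k ≤ GG (k + 1) := sub_mono (S_mono (seq_lt k).le)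

lemma GG_mono {k l : ℕ} (h : k ≤ l) : GG k ≤ GG l := monotone_nat_of_le_succ GG_succ h

lemma exists_GG (g : Heis F) : ∃ k, g ∈ GG k := by
  obtain ⟨m, hm⟩ := exists_sub g
  exact ⟨m, sub_mono (S_mono (le_seq m)) hm⟩

lemma y_succ {k : ℕ} {g : Heis F} (hg : g ∈ GG k) : (seq (k + 1)).y g = (seq k).y g := by
  obtain ⟨τ, _, _, _, h4, h5, _⟩ := nxt_spec (seq k) k
  have h := h5 g (GG_succ k hg)
  rw [h4 g hg] at h
  exact h

lemma y_stable {k l : ℕ} (h : k ≤ l) {g : Heis F} (hg : g ∈ GG k) :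
    (seq l).y g = (seq k).y g := by
  induction l, h using Nat.le_induction with
  | base => rfl
  | succ l hl ih => rw [y_succ (GG_mono hl hg), ih]

open Classical in
/-- The limit colouring. -/
noncomputable def chi (g : Heis F) : Bool := (seq (Nat.find (exists_GG g))).y g

lemma chi_eq {k : ℕ} {g : Heis F} (hg : g ∈ GG k) : chi g = (seq k).y g := by
  classical
  have h1 : Nat.find (exists_GG g) ≤ k := Nat.find_min' _ hg
  exact (y_stable h1 (Nat.find_spec (exists_GG g))).symm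

lemma pull {k l : ℕ} (hkl : k ≤ l) : ∀ t ∈ GG l, ∃ σ ∈ GG k, ∀ h ∈ GG k,
    (seq l).y (h * t) = (seq k).y (h * σ) := by
  induction l, hkl using Nat.le_induction with
  | base => exact fun t ht => ⟨t, ht, fun h _ => rfl⟩
  | succ l hl ih =>
    intro t ht
    obtain ⟨τ, _, h2, h3, _, h5, _⟩ := nxt_spec (seq l) l
    obtain ⟨σ, hσ, hσ2⟩ := ih (τ t) (h2 t ht)
    refine ⟨σ, hσ, ?_⟩
    intro h hh
    have hhl : h ∈ GG l := GG_mono hl hh
    have e1 : (seq (l + 1)).y (h * t) = (seq l).y (τ (h * t)) :=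
      h5 (h * t) ((GG (l + 1)).mul_mem (GG_succ l hhl) ht)
    rw [e1, h3 h hhl t ht]
    exact hσ2 h hh

/-- Every `n`-tuple can be moved into either colour class by an element of a fixed finite
subgroup. -/
theorem chi_hits (n : ℕ) (t : Fin (n + 1) → Heis F) (c : Bool) :
    ∃ f ∈ GG (n + 1), ∀ i, chi (f * t i) = c := by
  choose k hk using exists_GG
  set l := max (n + 1) (Finset.univ.sup (fun i => k (t i))) with hl
  have htl : ∀ i, t i ∈ GG l := fun i =>
    GG_mono ((Finset.le_sup (f := fun i => k (t i)) (Finset.mem_univ i)).trans (le_max_right _ _))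
      (hk (t i))
  have hnl : n + 1 ≤ l := le_max_left _ _
  choose σ hσ hσ2 using fun i => pull hnl (t i) (htl i)
  obtain ⟨τ, _, _, _, _, _, h6⟩ := nxt_spec (seq n) n
  obtain ⟨f, hf, hf2⟩ := h6 σ hσ c
  refine ⟨f, hf, fun i => ?_⟩
  have hfl : f * t i ∈ GG l := (GG l).mul_mem (GG_mono hnl hf) (htl i)
  rw [chi_eq hfl, hσ2 i f hf]
  exact hf2 i

end V11289.CS
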