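import Mathlib

namespace V11289.CS

open Filter Topology

lemma num_lemma (Q n d : ℕ) (hQ : 1 ≤ Q) (hd : 1 ≤ d) :
    ∃ N₀ : ℕ, ∀ N ≥ N₀, 2 * N ^ n * (Q - 1) ^ (N / d) < Q ^ (N / d) := by
  have hQ' : (0 : ℝ) < Q := by exact_mod_cast hQ
  set r : ℝ := (Q - 1) / Q with hr
  have hr0 : 0 ≤ r := by
    apply div_nonneg _ hQ'.le
    have : (1 : ℝ) ≤ Q := by exact_mod_cast hQ
    linarith
  have hr1 : r < 1 := by
    rw [hr, div_lt_one hQ']
    linarith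
  have ht := tendsto_pow_const_mul_const_pow_of_abs_lt_one n (r := r) (by rw [abs_of_nonneg hr0]; exact hr1)
  have hcpos : (0 : ℝ) < 1 / (2 * (2 * (d : ℝ)) ^ n) := by
    have : (0 : ℝ) < d := by exact_mod_cast hd
    positivity
  have hev := (ht.eventually (gt_mem_nhds hcpos)).and (eventually_ge_atTop 1)
  obtain ⟨M₀, hM₀⟩ := Filter.eventually_atTop.1 hev
  refine ⟨d * M₀, ?_⟩
  intro N hN
  set M := N / d with hM
  have hMM : M₀ ≤ M := by
    rw [hM, Nat.le_div_iff_mul_le (by omega)]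
    rw [mul_comm]
    exact hN
  obtain ⟨h1, h2⟩ := hM₀ M hMM
  have hNd : N ≤ 2 * d * M := by
    have : N < d * (M + 1) := by
      rw [hM]
      exact Nat.lt_mul_div_succ N (by omega)
    nlinarith
  have hdpos : (0 : ℝ) < d := by exact_mod_cast hd
  have h3 : (2 : ℝ) * (N : ℝ) ^ n * r ^ M < 1 := by
    have hNr : (N : ℝ) ≤ 2 * d * M := by exact_mod_cast hNd
    have h4 : (N : ℝ) ^ n ≤ (2 * (d : ℝ)) ^ n * (M : ℝ) ^ n := by
      rw [← mul_pow]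
      exact pow_le_pow_left₀ (by positivity) hNr n
    calc (2 : ℝ) * (N : ℝ) ^ n * r ^ M ≤ 2 * ((2 * (d : ℝ)) ^ n * (M : ℝ) ^ n) * r ^ M := by
          gcongr
      _ = (2 * (2 * (d : ℝ)) ^ n) * ((M : ℝ) ^ n * r ^ M) := by ring
      _ < (2 * (2 * (d : ℝ)) ^ n) * (1 / (2 * (2 * (d : ℝ)) ^ n)) := by
          apply mul_lt_mul_of_pos_left h1
          positivity
      _ = 1 := by
          have : (2 * (2 * (d : ℝ)) ^ n) ≠ 0 := by positivity
          field_simp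
  have h5 : (2 : ℝ) * (N : ℝ) ^ n * ((Q - 1 : ℕ) : ℝ) ^ M < (Q : ℝ) ^ M := by
    have hq : ((Q - 1 : ℕ) : ℝ) = r * Q := by
      rw [hr, div_mul_cancel₀ _ hQ'.ne', Nat.cast_sub hQ]
      simp
    rw [hq, mul_pow]
    have hQM : (0 : ℝ) < (Q : ℝ) ^ M := by positivity
    calc (2 : ℝ) * (N : ℝ) ^ n * (r ^ M * (Q : ℝ) ^ M) = (2 * (N : ℝ) ^ n * r ^ M) * (Q : ℝ) ^ M := by ring
      _ < 1 * (Q : ℝ) ^ M := mul_lt_mul_of_pos_right h3 hQM
      _ = _ := one_mul _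
  exact_mod_cast h5

end V11289.CS
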