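import Pool.Agent.V11289.CS.Ext
import Pool.Agent.V11289.CS.Num
import Pool.Agent.V11289.CS.Fld

namespace V11289.CS

open Heis

/-- A stage of the construction. -/
structure St where
  m : ℕ
  y : Heis F → Bool
  a : Bool → Heis F
  ha : ∀ c, a c ∈ sub (S m)
  hy : ∀ c, ∀ z ∈ Zc F, z ∈ sub (S m) → y (z * a c) = c

lemma card_conj (m m' : ℕ) (g : sub (S m')) (hg : (g : Heis F) ∉ Zc F) :
    Nat.card {f : sub (S m') // f * g * f⁻¹ ∈ (sub (S m)).subgroupOf (sub (S m'))}
      ≤ Nat.card (S m) * Nat.card (S m') ^ 2 := by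
  have hcard : Nat.card (S m × (S m' × S m')) = Nat.card (S m) * Nat.card (S m') ^ 2 := by
    rw [Nat.card_prod, Nat.card_prod, sq]
  rw [← hcard]
  have hconj : ∀ f : sub (S m'), ((f * g * f⁻¹ : sub (S m')) : Heis F)
      = ⟨(g : Heis F).a, (g : Heis F).b, (g : Heis F).c + (f : Heis F).a * (g : Heis F).b
        - (g : Heis F).a * (f : Heis F).b⟩ := by
    intro f
    have := conj_eq (f : Heis F) (g : Heis F)
    rw [← this]
    rfl
  have hmem : ∀ f : {f : sub (S m') // f * g * f⁻¹ ∈ (sub (S m)).subgroupOf (sub (S m'))},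
      (g : Heis F).c + (f.1 : Heis F).a * (g : Heis F).b
        - (g : Heis F).a * (f.1 : Heis F).b ∈ S m := by
    intro f
    have h := f.2
    rw [Subgroup.mem_subgroupOf, hconj] at h
    exact h.2.2
  by_cases hb : (g : Heis F).b = 0
  · have ha : (g : Heis F).a ≠ 0 := fun h => hg ⟨h, hb⟩
    refine Nat.card_le_card_of_injective
      (fun f => (⟨_, hmem f⟩, (⟨(f.1 : Heis F).a, f.1.2.1⟩, ⟨(f.1 : Heis F).c, f.1.2.2.2⟩))) ?_
    intro f f' h
    simp only [Prod.mk.injEq, Subtype.mk.injEq] at h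
    obtain ⟨h1, h2, h3⟩ := h
    apply Subtype.ext
    apply Subtype.ext
    refine Heis.ext h2 ?_ h3
    rw [hb] at h1
    have h4 : (g : Heis F).a * (f.1 : Heis F).b = (g : Heis F).a * (f'.1 : Heis F).b := by
      linear_combination -h1
    exact mul_left_cancel₀ ha h4
  · refine Nat.card_le_card_of_injective
      (fun f => (⟨_, hmem f⟩, (⟨(f.1 : Heis F).b, f.1.2.2.1⟩, ⟨(f.1 : Heis F).c, f.1.2.2.2⟩))) ?_
    intro f f' h
    simp only [Prod.mk.injEq, Subtype.mk.injEq] at h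
    obtain ⟨h1, h2, h3⟩ := h
    apply Subtype.ext
    apply Subtype.ext
    refine Heis.ext ?_ h2 h3
    rw [h2] at h1
    have h4 : (f.1 : Heis F).a * (g : Heis F).b = (f'.1 : Heis F).a * (g : Heis F).b := by
      linear_combination h1
    exact mul_right_cancel₀ hb h4

theorem step (s : St) (n : ℕ) (hn : 0 < n) : ∃ (s' : St) (τ : Heis F → Heis F),
    s.m < s'.m ∧ (∀ g ∈ sub (S s'.m), τ g ∈ sub (S s.m)) ∧
    (∀ h ∈ sub (S s.m), ∀ g ∈ sub (S s'.m), τ (h * g) = h * τ g) ∧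
    (∀ h ∈ sub (S s.m), τ h = h) ∧
    (∀ g ∈ sub (S s'.m), s'.y g = s.y (τ g)) ∧
    (∀ t : Fin n → Heis F, (∀ i, t i ∈ sub (S s'.m)) → ∀ c,
      ∃ f ∈ sub (S s'.m), ∀ i, s'.y (f * t i) = c) := by
  classical
  obtain ⟨m, y, a, ha, hy⟩ := s
  simp only
  set s0 := Nat.card (S m) with hs0
  have hs0pos : 0 < s0 := Nat.card_pos
  set q := Nat.card (sub (S m)) with hq
  have hqs : q = s0 ^ 3 := card_sub _
  have hqpos : 0 < q := by rw [hqs]; positivity
  set d := 2 * (n * n * q) with hd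
  have hdpos : 1 ≤ d := by
    have : 0 < 2 * (n * n * q) := by positivity
    omega
  obtain ⟨N₀, hN₀⟩ := num_lemma (q ^ n) n d (Nat.one_le_pow _ _ hqpos) hdpos
  obtain ⟨m', hm', hL⟩ := exists_large (max N₀ (max (2 * (n * n + 2 * n) * q) (s0 + 1))) (m + 1)
  set s1 := Nat.card (S m') with hs1
  have hL1 : N₀ ≤ s1 := (le_max_left _ _).trans hL
  have hL2 : 2 * (n * n + 2 * n) * q ≤ s1 := ((le_max_left _ _).trans (le_max_right _ _)).trans hL
  have hL3 : s0 + 1 ≤ s1 := ((le_max_right _ _).trans (le_max_right _ _)).trans hL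
  have hs1pos : 0 < s1 := by omega
  have hmm : m ≤ m' := by omega
  have hle : sub (S m) ≤ sub (S m') := sub_mono (S_mono hmm)
  have : Fintype (sub (S m')) := Fintype.ofFinite _
  have hN : Fintype.card (sub (S m')) = s1 ^ 3 := by
    rw [← Nat.card_eq_fintype_card, card_sub]
  have hNs : s1 ≤ s1 ^ 3 := Nat.le_self_pow (by norm_num) _
  -- an element of `S m'` outside `S m`
  obtain ⟨x, hx', hx⟩ : ∃ x : F, x ∈ S m' ∧ x ∉ S m := by
    by_contra hno
    push Not at hno
    have : S m' ≤ S m := hno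
    have hcard : s1 ≤ s0 := by
      apply Nat.card_le_card_of_injective (Subring.inclusion this)
      exact Subring.inclusion_injective this
    omega
  have hHcard : Nat.card ((sub (S m)).subgroupOf (sub (S m'))) = q :=
    Nat.card_congr (Subgroup.subgroupOfEquivOfLe hle).toEquiv
  have hCcard : Nat.card ((Zc F).subgroupOf (sub (S m'))) ≤ s1 := by
    refine Nat.card_le_card_of_injective
      (fun g => (⟨((g : sub (S m')) : Heis F).c, g.1.2.2.2⟩ : S m')) ?_
    intro g g' h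
    have h1 := g.2
    have h2 := g'.2
    rw [Subgroup.mem_subgroupOf] at h1 h2
    apply Subtype.ext
    apply Subtype.ext
    refine Heis.ext (h1.1.trans h2.1.symm) (h1.2.trans h2.2.symm) ?_
    exact congrArg Subtype.val h
  obtain ⟨τ, hτ1, hτ2, hτ3, hτ4⟩ := ext_lemma (K := sub (S m')) ((sub (S m)).subgroupOf (sub (S m')))
    ((Zc F).subgroupOf (sub (S m')))
    (by
      intro z hz k
      rw [Subgroup.mem_subgroupOf] at hz
      exact Subtype.ext (Zc_comm hz k))
    (fun k => y k) (fun c => ⟨a c, hle (ha c)⟩)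
    (fun c => by rw [Subgroup.mem_subgroupOf]; exact ha c)
    (by
      intro c z hz hzH
      rw [Subgroup.mem_subgroupOf] at hz hzH
      exact hy c z hz hzH)
    (fun c => if c then ⟨⟨x, 0, 0⟩, hx', (S m').zero_mem, (S m').zero_mem⟩ else 1)
    (by
      intro h hh z hz heq
      rw [Subgroup.mem_subgroupOf] at hh hz
      simp only [if_true, Bool.false_eq_true, if_false, mul_one] at heq
      have h1 := congrArg (fun k : sub (S m') => (k : Heis F).a) heq
      simp only [Subgroup.coe_mul, mul_a] at h1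
      rw [hz.1, add_zero] at h1
      apply hx
      rw [h1]
      exact hh.1)
    n (q * s1 ^ 2) (s1 ^ 3 / d) hn
    (by
      intro g hg
      rw [Subgroup.mem_subgroupOf] at hg
      refine (card_conj m m' g hg).trans ?_
      apply Nat.mul_le_mul_right
      rw [hqs]
      exact Nat.le_self_pow (by norm_num) _)
    (by
      rw [hHcard]
      apply Nat.mul_le_mul_left
      exact hCcard.trans (Nat.le_self_pow (by norm_num) _))
    (by
      rw [hN]
      calc 2 * (n * n + 2 * n) * (q * s1 ^ 2) = (2 * (n * n + 2 * n) * q) * s1 ^ 2 := by ring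
        _ ≤ s1 * s1 ^ 2 := Nat.mul_le_mul_right _ hL2
        _ = s1 ^ 3 := by ring)
    (by
      rw [hHcard, hN]
      calc 2 * (n * n * q * (s1 ^ 3 / d)) = d * (s1 ^ 3 / d) := by rw [hd]; ring
        _ ≤ s1 ^ 3 := Nat.mul_div_le _ _)
    (by
      rw [hHcard, hN]
      exact hN₀ _ (hL1.trans hNs))
  set σ := τ 1 with hσ
  have hσH : σ ∈ (sub (S m)).subgroupOf (sub (S m')) := hτ1 1
  choose k hk using hτ4
  refine ⟨⟨m', fun g => if h : g ∈ sub (S m') then y (τ (⟨g, h⟩ * σ⁻¹)) else true,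
    fun c => ((k c * σ : sub (S m')) : Heis F), fun c => (k c * σ).2, ?_⟩,
    fun g => if h : g ∈ sub (S m') then ((τ (⟨g, h⟩ * σ⁻¹) : sub (S m')) : Heis F) else 1,
    ?_, ?_, ?_, ?_, ?_, ?_⟩
  · intro c z hz hzS
    have hmem : z * ((k c * σ : sub (S m')) : Heis F) ∈ sub (S m') :=
      (sub (S m')).mul_mem hzS (k c * σ).2
    rw [dif_pos hmem]
    have e1 : (⟨z * ((k c * σ : sub (S m')) : Heis F), hmem⟩ : sub (S m')) * σ⁻¹
        = ⟨z, hzS⟩ * k c := by
      have : (⟨z * ((k c * σ : sub (S m')) : Heis F), hmem⟩ : sub (S m'))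
          = ⟨z, hzS⟩ * (k c * σ) := rfl
      rw [this]
      group
    rw [e1]
    exact hk c ⟨z, hzS⟩ (by rw [Subgroup.mem_subgroupOf]; exact hz)
  · show m < m'
    omega
  · intro g hg
    have hg' : g ∈ sub (S m') := hg
    beta_reduce
    rw [dif_pos hg']
    have := hτ1 (⟨g, hg'⟩ * σ⁻¹)
    rw [Subgroup.mem_subgroupOf] at this
    exact this
  · intro h hh g hg
    have hg' : g ∈ sub (S m') := hg
    have hhg : h * g ∈ sub (S m') := (sub (S m')).mul_mem (hle hh) hg'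
    beta_reduce
    rw [dif_pos hg', dif_pos hhg]
    have e1 : (⟨h * g, hhg⟩ : sub (S m')) * σ⁻¹ = ⟨h, hle hh⟩ * (⟨g, hg'⟩ * σ⁻¹) := by
      have : (⟨h * g, hhg⟩ : sub (S m')) = ⟨h, hle hh⟩ * ⟨g, hg'⟩ := rfl
      rw [this, mul_assoc]
    rw [e1, hτ2 ⟨h, hle hh⟩ (by rw [Subgroup.mem_subgroupOf]; exact hh)]
    rfl
  · intro h hh
    beta_reduce
    rw [dif_pos (hle hh)]
    have e1 := hτ2 (⟨h, hle hh⟩ * σ⁻¹) (Subgroup.mul_mem _ (by
      rw [Subgroup.mem_subgroupOf]; exact hh) (Subgroup.inv_mem _ hσH)) 1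
    rw [mul_one, ← hσ] at e1
    rw [e1]
    simp
  · intro g hg
    have hg' : g ∈ sub (S m') := hg
    simp only [dif_pos hg']
  · intro t ht c
    obtain ⟨f, hf⟩ := hτ3 (fun i => ⟨t i, ht i⟩ * σ⁻¹) c
    refine ⟨f, f.2, fun i => ?_⟩
    have hmem : (f : Heis F) * t i ∈ sub (S m') := (sub (S m')).mul_mem f.2 (ht i)
    simp only
    rw [dif_pos hmem]
    have e1 : (⟨(f : Heis F) * t i, hmem⟩ : sub (S m')) * σ⁻¹ = f * (⟨t i, ht i⟩ * σ⁻¹) := by
      have : (⟨(f : Heis F) * t i, hmem⟩ : sub (S m')) = f * ⟨t i, ht i⟩ := rfl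
      rw [this, mul_assoc]
    rw [e1]
    exact hf i

end V11289.CS
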